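import Mathlib
import Pool.Agent.H983R4.GL.T2

/-!
# Subconvexity for `L(f × g, 1/2 + it_f)`: a positive proportion of one short window suffices

Let `g` be fixed and let `f` run through the Hecke-Maass cusp forms of level 1, with spectral parameter
`t = t_f` (those with `t ≥ 1` for which `L(f × g, s)` is entire).  `L(f × g, s)` has degree 4, and its analytic
conductor at `1/2 + it_f` is `O(t_f^2)`.
We prove: if, for some `δ, η > 0`, the bound `|L(f × g, 1/2 + ix)| ≤ t_f^(1/2 - δ)` holds for a proportion `η` of the
points `x` of ONE window `[t_f - r, t_f + r]`, whose radius `r = r(f) ≤ η δ / (20 π)` may be as small as we please,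
then `|L(f × g, 1/2 + it_f)| = O(t_f^(1/2 - δ'))` with `δ' = η δ / (20 π)`, uniformly in `f`.  So the bound asked for in Q1
follows from a subconvex bound on a positive proportion of one arbitrarily short window around the point; and if
the bound of Q1 fails for every exponent, then for all `δ, η > 0` there are `f` such that the reverse inequality
holds on a proportion at least `1 - η` of every such window.

The theorem is stated for any family of L-functions of degree 4 with a size parameter `t` and analytic conductor
`O(t^2)` at the point; only classical facts are used: the functional equation, `Re μ_j < 1/2`, finite order, and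
`L(s) = O(t^ε)` in `Re s ≥ 1 + ε`.

Proof.  The Poisson-Jensen inequality in the half plane `Re s > 1/2` and the convexity bound give a gain
proportional to `η δ a / r` in the exponent at distance `a ≤ r` from the critical line, near the point.
Jensen's inequality on the circle of radius `r` around the point and the functional equation carry this over to
the point itself; the reflection costs at most `O(a)`, which is less than the gain as `r ≤ η δ / (20 π)`.
-/

set_option autoImplicit false

open MeasureTheory Real

namespace Pool.Agent.Results.MP_1f3421_nt.ShortWindows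

open Pool.Agent.H983R4.GL.T

theorem result (ι : Type) (F : ι → Datum 4) (t : ι → ℝ) (b : ℝ) (hF : ∀ i, (F i).Ok)
    (hR : RightBound F t) (ht : ∀ i, 1 ≤ t i) (hc : ∀ i, (F i).C (t i) ≤ b * t i ^ 2)
    (δ η : ℝ) (hδ : 0 < δ) (hδ' : δ ≤ 1 / 2) (hη : 0 < η) (hη' : η ≤ 1) :
    ∃ B : ℝ, ∀ i, SmallSomewhere (F i) (t i) (t i ^ (1 / 2 - δ)) η (η * δ / (20 * π)) →
      ‖(F i).f (1 / 2 + (t i : ℂ) * Complex.I)‖ ≤ B * t i ^ (1 / 2 - η * δ / (20 * π)) := by
  obtain ⟨B, hB⟩ := main (F := F) (T := t) (d := t) (b := b) (A := 2) (by norm_num) hF hR ht
    (fun i => by simpa using hc i) hδ (by norm_num; linarith) hη hη'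
  refine ⟨B, fun i h => ?_⟩
  have h1 := hB i (by
    convert h using 2
    · norm_num
    · push_cast
      ring)
  have e : ((2 : ℕ) : ℝ) / 4 = 1 / 2 := by norm_num
  rw [e] at h1
  simpa using h1

end Pool.Agent.Results.MP_1f3421_nt.ShortWindows
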